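import Pool.Agent.Lib_MP_cc07e8_co.EngFinal
import Pool.Agent.Lib_MP_cc07e8_ck.CkStart

/-!
# MP_cc07e8_co: the squares of side `1 / n`, `n ≥ 2`, pack perfectly into a rectangle

Moser's problem (1968): there is a rectangle of area `π² / 6 - 1` into which the squares of side `1 / n`,
`n ≥ 2`, can be packed. So the least packing excess is `0` and it is attained.

The proof has two parts. `Pool.Agent.Lib_MP_cc07e8_ck` contains an explicit decomposition of a rectangle
into the squares `2 ≤ n < 40707584`, one larger rectangle and many thin strips (checked by the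
kernel, with interval arithmetic), `Pool.Agent.Lib_MP_cc07e8_co` the proof that from such a start the
process can be continued forever.
-/

namespace Pool.Agent.Results.MP_cc07e8_co.PerfectPacking

/-- The Euclidean plane. -/
abbrev Plane : Type := EuclideanSpace ℝ (Fin 2)

/-- The closed square of side `1 / n`: the set `[0, 1 / n] × [0, 1 / n]`. -/
def Q (n : ℕ) : Set Plane := {p | ∀ i, 0 ≤ p i ∧ p i ≤ 1 / (n : ℝ)}

/-- The closed rectangle `[0, a] × [0, b]`. -/
def Rect (a b : ℝ) : Set Plane := {p | (0 ≤ p 0 ∧ p 0 ≤ a) ∧ (0 ≤ p 1 ∧ p 1 ≤ b)}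

/-- The squares of side `1 / n`, `n ≥ 2`, can be packed into the rectangle `[0, a] × [0, b]`: every
square `Q n` is placed inside the rectangle by a motion (an isometry `f n` of the plane onto itself), and
distinct squares have disjoint interiors. -/
def Packs (a b : ℝ) : Prop :=
  ∃ f : ℕ → (Plane ≃ᵢ Plane), (∀ n, 2 ≤ n → f n '' Q n ⊆ Rect a b) ∧
    ∀ m n, 2 ≤ m → 2 ≤ n → m ≠ n → Disjoint (interior (f m '' Q m)) (interior (f n '' Q n))

/-- `ε ≥ 0` is admissible: some rectangle of area `π² / 6 - 1 + ε` admits a packing. -/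
def Admissible (ε : ℝ) : Prop :=
  0 ≤ ε ∧ ∃ a b : ℝ, 0 < a ∧ 0 < b ∧ a * b = Real.pi ^ 2 / 6 - 1 + ε ∧ Packs a b

/-- Moser's problem: there is a perfect packing (`ε = 0` is admissible), and so the infimum of the
admissible `ε` is `0`. -/
theorem result : Admissible 0 ∧ sInf {ε : ℝ | Admissible ε} = 0 := by
  have h0 : Admissible 0 := by
    obtain ⟨a, b, X, Y, G, hS⟩ := Pool.Agent.Moser.Ck.exists_start
    obtain ⟨ha, hb, f, h1, h2⟩ := Pool.Agent.Moser.Eng.motions_of_start hS
    refine ⟨le_rfl, a, b, ha, hb, ?_, f, ?_, h2⟩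
    · rw [add_zero]
      exact hS.area
    · intro n hn
      refine (h1 n hn).trans ?_
      rintro p ⟨c1, c2, c3, c4⟩
      exact ⟨⟨c1, c2⟩, ⟨c3, c4⟩⟩
  refine ⟨h0, le_antisymm (csInf_le ⟨0, fun ε hε => hε.1⟩ h0) (le_csInf ⟨0, h0⟩ fun ε hε => hε.1)⟩

end Pool.Agent.Results.MP_cc07e8_co.PerfectPacking
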