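import Pool.Agent.Lib_MP_cc07e8_co.Main

/-!
# MP_cc07e8_co: perfect packings of the squares of side `1 / m`, `m ≥ n0`

The exponent `t = 1` (Moser's squares `1 / m`): for every large `n0` the squares of side `1 / m`, `m ≥ n0`,
pack perfectly into every finite family of rectangles of the right total area and of small total size.
In particular (one box with equal sides) they pack perfectly into a square.
-/

namespace Pool.Agent.Results.MP_cc07e8_co.TailPacking

/-- The closed axis-parallel square of side `1 / m` with lower left corner `p`. -/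
def sq (m : ℕ) (p : ℝ × ℝ) : Set (ℝ × ℝ) :=
  Set.Icc p.1 (p.1 + 1 / (m : ℝ)) ×ˢ Set.Icc p.2 (p.2 + 1 / (m : ℝ))

/-- The closed rectangle `[0, a] × [0, b]`. -/
def box (a b : ℝ) : Set (ℝ × ℝ) := Set.Icc 0 a ×ˢ Set.Icc 0 b

/-- The squares of side `1 / m`, `m ≥ n0`, can be packed (by translations) into `k` boxes with sides
`w i`, `h i`: the square `m` is placed into the box `c m` with lower left corner `p m`, and two squares
in the same box have disjoint interiors. -/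
def Packs (n0 : ℕ) {k : ℕ} (w h : Fin k → ℝ) : Prop :=
  ∃ (c : ℕ → Fin k) (p : ℕ → ℝ × ℝ),
    (∀ m, n0 ≤ m → sq m (p m) ⊆ box (w (c m)) (h (c m))) ∧
    ∀ m, n0 ≤ m → ∀ l, n0 ≤ l → m ≠ l → c m = c l →
      Disjoint (interior (sq m (p m))) (interior (sq l (p l)))

theorem interior_sq (m : ℕ) (p : ℝ × ℝ) : interior (sq m p) =
    Set.Ioo p.1 (p.1 + 1 / (m : ℝ)) ×ˢ Set.Ioo p.2 (p.2 + 1 / (m : ℝ)) := by
  rw [sq, interior_prod_eq, interior_Icc, interior_Icc]

/-- There is `n1` such that for every `n0 ≥ n1` and every finite family of rectangles `w i × h i` with total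
area `∑_{m ≥ n0} 1 / m²` and with `∑ (long side + 3 * short side) ≤ 1 / 1600`, the squares of side `1 / m`,
`m ≥ n0`, can be packed into the family (perfectly, as the areas agree). -/
theorem result : ∃ n1 : ℕ, ∀ n0 : ℕ, n1 ≤ n0 → ∀ (k : ℕ) (w h : Fin k → ℝ),
    (∀ i, 0 < w i ∧ 0 < h i) →
    ∑ i, (max (w i) (h i) + 3 * min (w i) (h i)) ≤ 1 / 1600 →
    ∑ i, w i * h i = ∑' m : ℕ, 1 / ((n0 + m : ℕ) : ℝ) ^ 2 →
    Packs n0 w h := by
  obtain ⟨n1, H⟩ := Pool.Agent.Moser.tail_explicit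
  refine ⟨n1, fun n0 hn0 k w h hpos hwt harea => ?_⟩
  obtain ⟨c, px, py, h1, h2⟩ := H n0 hn0 k w h hpos hwt harea
  refine ⟨c, fun m => (px m, py m), ?_, ?_⟩
  · rintro m hm ⟨x, y⟩ ⟨⟨hx1, hx2⟩, ⟨hy1, hy2⟩⟩
    obtain ⟨g1, g2, g3, g4⟩ := h1 m hm
    exact ⟨⟨g1.trans hx1, hx2.trans g2⟩, ⟨g3.trans hy1, hy2.trans g4⟩⟩
  · intro m hm l hl hml hc
    rw [Set.disjoint_left]
    rintro ⟨x, y⟩ hx hy
    rw [interior_sq] at hx hy
    obtain ⟨⟨a1, a2⟩, ⟨a3, a4⟩⟩ := hx
    obtain ⟨⟨b1, b2⟩, ⟨b3, b4⟩⟩ := hy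
    simp only at a1 a2 a3 a4 b1 b2 b3 b4
    rcases h2 m hm l hl hml hc with h3 | h3 | h3 | h3 <;> linarith

end Pool.Agent.Results.MP_cc07e8_co.TailPacking
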